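import Pool.Agent.Q308.BS.GenG

/-!
# The birational section conjecture for the curves over almost all hyperelliptic curves

Let `K` be a field finitely generated over `ℚ`, let `A` be a finite set of an odd number, at least
three, of polynomials in `K[S]` and let `u` be in `K`, `u ≠ 0`. The hyperelliptic curve (elliptic curve
if `A` has three elements)

  `C : u y ^ 2 = ∏ (x - a)`  (`a` in `A`)

over `K(S)` has rational branch points.

**Theorem 1.** Suppose that the family `A` is generic: the differences `a - b` of different elements are
irreducible of odd degree, and for all `a`, `b` in `A`, `a ≠ b`, no product `d ∏ (k - l) ^ E k l` over the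
pairs of different elements of `A` without `b`, where `d` is in `K`, `d ≠ 0`, and `E k l + E l k` is odd
for some `k ≠ l`, is a square modulo `a - b`. Let `k` be any field finitely generated over `ℚ` which has a
finite extension `k'` isomorphic to `K(S)` (for instance `k = K(S)`). Then the birational section
conjecture holds for every curve `X` over `k` which has over `k'` a nonconstant map to `C`: every section
of `Gal(Ω/F) → Gal(B/k)`, where `F` is the function field of `X` and `Ω`, `B` are algebraic closures of
`F`, `k`, arises from exactly one `k`-rational point of `X`. Here the section is assumed to be given by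
rational points over the completions `L_v` of the number fields `L` at their finite places, for all the
embeddings of `k` in `L_v`; by the theorem of Koenigsmann on birational sections over `p`-adically closed
fields this holds for every section.

**Theorem 2.** Let `n ≥ 3` and `N ≥ 5` be odd, and let `b j`, `j` in a finite set `κ`, be polynomials over
`K` which span the polynomials of degree at most `N` (for example `b j = S ^ j`, or, if `K` is a number
field, the products of the elements of a basis of the integers of `K` and of the `S ^ j`). For an integer
matrix `v` with `n` rows let `a i = ∑ v i j * b j`. Then the proportion, among the matrices with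
`|v i j| ≤ B`, of those for which the differences `a i - a j` have degree `N` and the conclusion of
Theorem 1 holds for all the curves `u y ^ 2 = ∏ (x - a i)`, `u` in `K`, `u ≠ 0`, tends to one as `B` tends
to infinity: the birational section conjecture holds for all the curves which map to the hyperelliptic
curve of genus `(n - 1) / 2` with branch points infinity and `a i`, for 100 percent of the `a`.

The proof. Let `s` be a section and let `(x, y)` be the point of `C` in the function field. By Kummer
theory `x - a` is for every `a` in `A` the product of a polynomial `P a` and of a square of a function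
which is fixed by `s`, and `u ∏ P a` is a square in `K(S)`. As `s` is locally geometric, the `P a` are
the classes of a point of `C` over every completion. The curve has good reduction at the closed points of
the affine line outside the zeros of the differences, where the exponents of the `P a` are even; at
`a - b` only the exponents of `P a` and `P b` may be odd, and they have the same parity. So `P a`
is the product of a constant, of a square and of differences `a - l`, and the pairs `a`, `l` which
occur form a graph. A local point near a root of `a - b` in `K[S] / (a - b)` is near the node of the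
reduction, or it gives a point of the normalization; the independence of the differences modulo `a - b`
shows that the graph is empty or consists of all the pairs which contain one branch point `s` (file
`Pool.Agent.Q308.BS.GenC`), and, as the degree of `a - b` is odd, that the constants are squares: either
all the `P a P b` are squares or all the `P a (s - a)`, `a ≠ s`, are squares. So in the function field the
product of three of the factors `x - a` (among them `x - s` in the second case) is a square times `u`
or times `u` and the product of the other differences `s - a`: this is a point of an elliptic curve with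
rational points of order two. Its group of classes for the multiplication by two consists of the classes
of the points of order two by a similar argument (files `Pool.Agent.Q308.BS.GenD`, `GenF`, `SelW`), and
the section is geometric by the starting theorems on curves over elliptic curves with bounded Selmer
groups (`MP_8312c9_nt.BoundedSelmer`). Note that `C` itself has, in general, no map to an elliptic curve:
the elliptic curve is found in terms of the section. The
hypothesis of Theorem 1 holds for almost all families: for infinitely many `p` there is an embedding of
`K` in `ℚ_p`, and for a positive proportion, not depending on `p`, of the families modulo `p` the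
difference `a - b` has two simple roots such that the product of the two values of the given product of
differences is not a square (file `Pool.Agent.Q308.TG.GoodT`).
-/

set_option autoImplicit false

open Polynomial IsDedekindDomain NumberField Filter Topology Pool.Agent.TH954

namespace Pool.Agent.Results.MP_8312c9_nt.AlmostAllHyperelliptic

/-- The section `s` is given by a rational point over the extension `L` of `k` along `φ`, with the
algebraic closure of `L` as field of values. -/
def GeometricAlong {k F Ω B : Type} [Field k] [Field F] [Field Ω] [Field B] [Algebra F Ω]
    [Algebra k Ω] [Algebra k B] (s : GalSection k F Ω B) {L : Type} [Field L] (φ : k →+* L) :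
    Prop :=
  letI := φ.toAlgebra
  s.GeometricOver L (AlgebraicClosure L)

/-- The section `s` is given by rational points over the completions of number fields at their finite
places, for all the embeddings of `k` in these completions. -/
def LocallyGeometric {k F Ω B : Type} [Field k] [Field F] [Field Ω] [Field B] [Algebra F Ω]
    [Algebra k Ω] [Algebra k B] (s : GalSection k F Ω B) : Prop :=
  ∀ (L : Type) [Field L] [NumberField L] (v : HeightOneSpectrum (𝓞 L))
    (φ : k →+* v.adicCompletion L), GeometricAlong s φ

/-- `F` is an extension of `k` of transcendence degree one. -/
def IsCurveField (k F : Type) [Field k] [Field F] [Algebra k F] : Prop :=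
  ∃ t : F, Transcendental k t ∧ Algebra.IsAlgebraic (IntermediateField.adjoin k {t}) F

section defs

variable {K : Type} [Field K]

/-- The birational section conjecture holds for all the curves over a finitely generated field `k` of
characteristic zero which have over a finite extension `k'` of `k` isomorphic to `K(S)` a nonconstant map
to the curve `E y ^ 2 = ∏ (x - a)`, `a` in `A`: if `F` is the function field of the curve, `Ω`, `B`
are algebraic closures of `F`, `k`, every locally geometric section of `Gal(Ω/F) → Gal(B/k)` arises from
exactly one rational point. -/
def SectionsArise (A : Finset K[X]) (E : K[X]) : Prop :=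
  ∀ (k : Type) [Field k] [CharZero k] [Algebra.EssFiniteType ℚ k]
    (F Ω B : Type) [Field F] [Field Ω] [Field B]
    [Algebra k F] [Algebra F Ω] [Algebra k Ω] [Algebra k B]
    [IsScalarTower k F Ω] [IsAlgClosure F Ω] [IsAlgClosure k B], IsCurveField k F →
  ∀ (k' : IntermediateField k Ω) [FiniteDimensional k k'] (ψ : RatFunc K →+* Ω),
    ψ.fieldRange = k'.toSubfield →
  ∀ x y : Ω, x ∈ IntermediateField.adjoin F (k' : Set Ω) →
    y ∈ IntermediateField.adjoin F (k' : Set Ω) → Transcendental k x →
    ψ (algebraMap K[X] (RatFunc K) E) * y ^ 2 =
      ∏ a ∈ A, (x - ψ (algebraMap K[X] (RatFunc K) a)) →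
  ∀ s : GalSection k F Ω B, LocallyGeometric s → ∃! O : ValuationSubring F, s.ArisesFrom O

open scoped Classical in
/-- The family `A` of polynomials is generic: the differences are irreducible of odd degree, and the
differences of the elements of `A` different from `b` are independent modulo constants and squares in
`K[S] / (a - b)`: if the product of a nonzero constant `u` and of powers `(k - l) ^ E k l` is a square
modulo `a - b`, the exponents `E k l + E l k` are even. -/
def Generic (A : Finset K[X]) : Prop :=
  (∀ a ∈ A, ∀ b ∈ A, a ≠ b → Irreducible (a - b) ∧ Odd (a - b).natDegree) ∧
  ∀ a ∈ A, ∀ b ∈ A, a ≠ b → ∀ (u : K) (E : K[X] → K[X] → ℕ) (z : K[X]), u ≠ 0 →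
    a - b ∣ C u * (∏ k ∈ A.erase b, ∏ l ∈ (A.erase b).erase k, (k - l) ^ E k l) - z ^ 2 →
    ∀ k ∈ A.erase b, ∀ l ∈ A.erase b, k ≠ l → Even (E k l + E l k)

variable {κ : Type} [Fintype κ]

/-- The polynomials `b i` have degree at most `N` and span the polynomials of degree at most `N`. -/
def Spans (N : ℕ) (b : κ → K[X]) : Prop :=
  (∀ i, (b i).natDegree ≤ N) ∧ ∀ j : Fin (N + 1), ∃ c : κ → K, ∑ i, C (c i) * b i = X ^ (j : ℕ)

/-- The integer combination of the `b i` with the coefficients `v i`. -/
noncomputable def comb (b : κ → K[X]) (v : κ → ℤ) : K[X] := ∑ i, C ((v i : ℤ) : K) * b i

/-- The integer vectors with coordinates of absolute value at most `B`. -/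
def Box (κ : Type) (B : ℕ) : Set (κ → ℤ) := {v | ∀ i, |v i| ≤ B}

/-- The property `S` holds for a proportion of the vectors in the boxes which tends to one. -/
def AlmostAll (S : Set (κ → ℤ)) : Prop :=
  Tendsto (fun B : ℕ => ((Box κ B ∩ S).ncard : ℝ) / (Box κ B).ncard) atTop (𝓝 1)

/-- The polynomial with the coefficients in the row `i` of the integer matrix `v`. -/
noncomputable def member {ι : Type} (b : κ → K[X]) (v : ι × κ → ℤ) (i : ι) : K[X] :=
  comb b (fun j => v (i, j))

end defs

theorem fg_of_ess {K : Type} [Field K] [CharZero K] [Algebra.EssFiniteType ℚ K] :
    ∃ s : Finset K, Subfield.closure (s : Set K) = ⊤ := by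
  obtain ⟨s, hs⟩ := IntermediateField.fg_top (F := ℚ) (E := K)
  refine ⟨s, ?_⟩
  have h1 : (IntermediateField.adjoin ℚ (s : Set K)).toSubfield ≤ Subfield.closure (s : Set K) := by
    rw [IntermediateField.adjoin_toSubfield, Subfield.closure_le]
    rintro x (⟨q, rfl⟩ | hx)
    · have h := SubfieldClass.ratCast_mem (Subfield.closure (s : Set K)) q
      simpa using h
    · exact Subfield.subset_closure hx
  rw [eq_top_iff]
  intro x _
  apply h1
  rw [hs]
  trivial

open scoped Classical in
/-- **Theorem.** (1) The birational section conjecture for all the curves with a nonconstant map to
`u y ^ 2 = ∏ (x - a)`, `a` in `A`, over `K(S)`, for all the generic families `A` of an odd number of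
branch points. (2) The same for 100 percent of the families of an odd number of polynomials of odd
degree at least five. -/
theorem result {K : Type} [Field K] [CharZero K] [Algebra.EssFiniteType ℚ K] :
    (∀ A : Finset K[X], Odd A.card → 3 ≤ A.card → Generic A →
      ∀ u : K, u ≠ 0 → SectionsArise A (C u)) ∧
    ∀ N : ℕ, Odd N → 5 ≤ N → ∀ (κ : Type) [Fintype κ] (b : κ → K[X]), Spans N b →
      ∀ (ι : Type) [Fintype ι], Odd (Fintype.card ι) → 3 ≤ Fintype.card ι →
      AlmostAll {v : ι × κ → ℤ |
        (∀ i j : ι, i ≠ j → (member b v i - member b v j).natDegree = N) ∧
        ∀ u : K, u ≠ 0 → SectionsArise (Finset.univ.image (member b v)) (C u)} := by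
  have main : ∀ A : Finset K[X], Odd A.card → 3 ≤ A.card → Pool.Agent.Q308.BS.Generic A →
      ∀ u : K, u ≠ 0 → SectionsArise A (C u) := by
    intro A hodd hcard hA u hu k _ _ _ F Ω B _ _ _ _ _ _ _ _ _ _ hF k' _ ψ hψ x y hx hy hxt hxy s
      hloc
    exact Pool.Agent.Q308.BS.wrap hF k' ψ hψ
      (fun F0 _ _ q hkum hdesc x y hx hxy =>
        Pool.Agent.Q308.BS.gen_descent hA hodd hcard hu q hkum hdesc x y hx hxy)
      x y hx hy hxt hxy s (fun i => hloc i.L i.v i.φ)
  refine ⟨?_, ?_⟩
  · intro A hodd hcard hA
    refine main A hodd hcard ⟨fun a ha b hb hab => (hA.1 a ha b hb hab).1,
      fun a ha b hb hab => (hA.1 a ha b hb hab).2, ?_⟩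
    intro a ha b hb hab u E z hu hd
    exact hA.2 a ha b hb hab u E z hu hd
  · intro N hN hN5 κ _ b hb ι _ hι hι3
    have h1 := Pool.Agent.Q308.TG.all_T (ι := ι) fg_of_ess (by omega : 4 ≤ N) hb
    have h3 : Pool.Agent.Q126.TD.Full {v : ι × κ → ℤ |
        (∀ i j : ι, i ≠ j → (member b v i - member b v j).natDegree = N) ∧
        ∀ u : K, u ≠ 0 → SectionsArise (Finset.univ.image (member b v)) (C u)} := by
      refine h1.mono ?_
      rintro v ⟨r1, r2⟩
      obtain ⟨hinj, hgen⟩ := Pool.Agent.Q308.BS.generic_image hN r1 r2
      refine ⟨fun i j hij => (r1 i j hij).2, ?_⟩
      have hcard : (Finset.univ.image (member b v)).card = Fintype.card ι := by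
        have hinj' : Function.Injective (member b v) := hinj
        rw [Finset.card_image_of_injective _ hinj', Finset.card_univ]
      exact main _ (by rw [hcard]; exact hι) (by rw [hcard]; exact hι3) hgen
    refine h3.congr fun B => ?_
    have h5 : ((Box (ι × κ) B).ncard : ℝ) = (2 * B + 1 : ℝ) ^ Fintype.card (ι × κ) := by
      have : (Box (ι × κ) B).ncard = (2 * B + 1) ^ Fintype.card (ι × κ) :=
        Pool.Agent.Q126.TD.box_ncard (κ := ι × κ) B
      rw [this]
      push_cast
      rfl
    rw [h5]
    rfl

end Pool.Agent.Results.MP_8312c9_nt.AlmostAllHyperelliptic
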