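import Pool.Agent.Q308.BS.Main
import Pool.Agent.Y791.BC.Near
import Pool.Agent.Y791.BC.Desc
import Pool.Agent.Y791.BF.FrobRes
import Pool.Agent.Y791.BF.EmbFG
import Pool.Agent.Y791.BF.ObsFG
import Pool.Agent.Y791.BF.Level
import Pool.Agent.Y46.BF.Inter2
import Pool.Agent.Y791.BS.Unr

/-!
# The birational section conjecture for twists of hyperelliptic curves over fields of rational functions

Let `K` be a field finitely generated over `ℚ`, and let `k' = K(S)` be a field of rational functions.

**Twists.** Let `f ∈ K[x]` be a polynomial with `n` different roots in `K` (of any multiplicities prime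
to `l`), `l` a prime number, and let `D ∈ K[S]` be a nonzero polynomial with `r` different monic
irreducible factors. If `n ≥ r + 4`, or if `l` is odd and `n ≥ r + 3`, the birational section conjecture
holds over `k'` for the curve `D(S) y ^ l = f(x)` and for all curves with a nonconstant map to it. For
instance it holds for the twists by an irreducible polynomial `D`, of arbitrary degree, of all
hyperelliptic curves of genus at least two over `K` with rational branch points.

**General theorem.** Let `k` be any field finitely generated over `ℚ` of which `k' = K(S)` is a finite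
extension. Consider the cyclic covering

  `y ^ l = ∏ (x - t) ^ m t * H(x, S)`  (`t` in the finite set `R` of elements of `K`)

of the line over `K(S)`, where `l` does not divide the `m t` and `H` is any polynomial in `x` with
coefficients in `K[S]`. It is ramified at the constant points `t` in `R` and at moving points. Let `Z` be
the set of the closed points of the line over `K` at which a moving branch point meets a constant one,
that is, of the irreducible factors of the `H(t, S)`, `t` in `R`. If `|R| ≥ |Z| + 4`, or if `l` is odd
and `|R| ≥ |Z| + 3`, then the birational section conjecture holds for every curve `X` over `k` which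
has a nonconstant map to this covering over `k'`: every section of `Gal(Ω/F) → Gal(B/k)`, where `F` is
the function field of `X` and `Ω`, `B` are algebraic closures of `F`, `k`, arises from exactly one
`k`-rational point of `X`. Here the section is assumed to be given by rational points over the
completions `L_v` of the number fields `L` at their finite places, for all the embeddings of `k` in
`L_v`; by the theorem of Koenigsmann on birational sections over `p`-adically closed fields this holds
for every section.

So for polynomials `f` with roots outside `K` one takes the splitting field of `f` for `K`: the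
conjecture holds over `K₀(S)` for `D(S) y ² = f(x)`, `f` in `K₀[x]` separable of degree at least `r + 4`.
In `MP_8312c9_nt.ConstantBranchPoints` the set `Z` had to consist of at most two `K`-rational points
(one, if `l` is odd), and `l` did not divide the degree; so the twists by polynomials `D` with three
zeros were not included.

The proof. Let `x - t = c_t g_t ^ l` with `c_t` in `K(S)` and `g_t` fixed by the section. At a closed
point of the line, the value of `x` at a near local point is congruent to at most one `t`; so the
exponents modulo `l` of the `c_t` at this point are equal for all `t` in `R`, but for one `t` at most,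
and for all `t` if the point is not in `Z` (the equation of the curve). Leave out the at most `|Z|`
exceptional `t`. For the other ones the quotients `c_t / c_t'` are constants up to powers. So, for one of
them, `t'`, the function `z = 1 / (x - t')` has the property that `z - 1 / (t - t')`, for at least three
(two) other `t`, is the product of a constant and of the power of a function which is fixed by the
section. The section is then given on the constant curves `w ^ l = ∏ (z - z_i)`, and the theorems of
`Pool.Agent.Y791` on constant curves show that it arises from a rational point.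
-/

set_option autoImplicit false

open Polynomial IsDedekindDomain NumberField Pool.Agent.TH954 Pool.Agent.Y791.BF Pool.Agent.Y791.BC

namespace Pool.Agent.Results.MP_8312c9_nt.FewBadPlaces

/-- The section `s` is given by a rational point over the extension `L` of `k` along `φ`, with the
algebraic closure of `L` as field of values. -/
def GeometricAlong {k F Ω B : Type} [Field k] [Field F] [Field Ω] [Field B] [Algebra F Ω]
    [Algebra k Ω] [Algebra k B] (s : GalSection k F Ω B) {L : Type} [Field L] (φ : k →+* L) :
    Prop :=
  letI := φ.toAlgebra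
  s.GeometricOver L (AlgebraicClosure L)

/-- The section `s` is given by rational points over the completions of number fields at their finite
places, for all the embeddings of `k` in these completions. -/
def LocallyGeometric {k F Ω B : Type} [Field k] [Field F] [Field Ω] [Field B] [Algebra F Ω]
    [Algebra k Ω] [Algebra k B] (s : GalSection k F Ω B) : Prop :=
  ∀ (L : Type) [Field L] [NumberField L] (v : HeightOneSpectrum (𝓞 L))
    (φ : k →+* v.adicCompletion L), GeometricAlong s φ

/-- `F` is an extension of `k` of transcendence degree one. -/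
def IsCurveField (k F : Type) [Field k] [Field F] [Algebra k F] : Prop :=
  ∃ t : F, Transcendental k t ∧ Algebra.IsAlgebraic (IntermediateField.adjoin k {t}) F

/-- The value `H(x, S)` of a polynomial with coefficients in `K[S]`. -/
noncomputable def val {K Ω : Type} [Field K] [Field Ω] [Algebra K Ω] (H : K[X][X]) (x S : Ω) : Ω :=
  eval₂ (aeval S : K[X] →ₐ[K] Ω).toRingHom x H

/-- All monic irreducible divisors of the polynomial `p` are in the finite set `Z`. -/
def FactorsIn {K : Type} [Field K] (p : K[X]) (Z : Finset K[X]) : Prop :=
  ∀ π : K[X], π.Monic → Irreducible π → π ∣ p → π ∈ Z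

/-- `r` is small in comparison with the number `n` of branch points of a covering of degree `l`. -/
def Few (l n r : ℕ) : Prop := r + 4 ≤ n ∨ (l ≠ 2 ∧ r + 3 ≤ n)

theorem general {k : Type} [Field k] [CharZero k] [Algebra.EssFiniteType ℚ k]
    {F Ω B : Type} [Field F] [Field Ω] [Field B]
    [Algebra k F] [Algebra F Ω] [Algebra k Ω] [Algebra k B]
    [IsScalarTower k F Ω] [IsAlgClosure F Ω] [IsAlgClosure k B] (hF : IsCurveField k F)
    (k' : IntermediateField k Ω) [FiniteDimensional k k']
    (K : Type) [Field K] [CharZero K] [Algebra.EssFiniteType ℚ K] [Algebra K Ω]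
    (S : Ω) (hS : Transcendental K S)
    (hk' : k'.toSubfield = Subfield.closure (Set.range (algebraMap K Ω) ∪ {S}))
    (l : ℕ) (hl : l.Prime) (R : Finset K) (m : K → ℕ) (H : K[X][X]) (Z : Finset K[X])
    (hm : ∀ t ∈ R, ¬ l ∣ m t) (hZ : ∀ t ∈ R, FactorsIn (H.eval (C t)) Z)
    (hfew : Few l R.card Z.card)
    (x y : Ω) (hx : x ∈ IntermediateField.adjoin F (k' : Set Ω))
    (hy : y ∈ IntermediateField.adjoin F (k' : Set Ω)) (hxt : Transcendental k x)
    (hxy : y ^ l = (∏ t ∈ R, (x - algebraMap K Ω t) ^ m t) * val H x S)
    (s : GalSection k F Ω B) (hloc : LocallyGeometric s) :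
    ∃! O : ValuationSubring F, s.ArisesFrom O := by
  have hE : S_EmbFG := EmbFG.main FrobRes.main
  refine Pool.Agent.Q308.BS.few_main Near.main hE Pool.Agent.Y791.BS.Unr.main
    Pool.Agent.Y46.BF4.main (ObsFG.main FrobRes.main hE) Level.ext (Desc.main hE) inferInstance hF
    k' K inferInstance S hS hk' l hl R m H Z hm ?_ ?_ x y hx hy hxt hxy s
    (fun i => hloc i.L i.v i.φ)
  · rintro π h1 h2 ⟨t, ht, h3⟩
    exact hZ t ht π h1 h2 h3
  · rcases hfew with h | ⟨h, h'⟩
    · exact Or.inl (by omega)
    · exact Or.inr ⟨h, by omega⟩

theorem twist {K : Type} [Field K] [CharZero K] [Algebra.EssFiniteType ℚ K]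
    [Algebra.EssFiniteType ℚ (RatFunc K)] [CharZero (RatFunc K)]
    {F Ω B : Type} [Field F] [Field Ω] [Field B]
    [Algebra (RatFunc K) F] [Algebra F Ω] [Algebra (RatFunc K) Ω] [Algebra (RatFunc K) B]
    [IsScalarTower (RatFunc K) F Ω] [IsAlgClosure F Ω] [IsAlgClosure (RatFunc K) B]
    (hF : IsCurveField (RatFunc K) F)
    (l : ℕ) (hl : l.Prime) (R : Finset K) (m : K → ℕ) (hm : ∀ t ∈ R, ¬ l ∣ m t) (D : K[X])
    (hD0 : D ≠ 0) (Z : Finset K[X]) (hZ : FactorsIn D Z) (hfew : Few l R.card Z.card)
    (x y : F) (hxt : Transcendental (RatFunc K) x)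
    (hxy : algebraMap (RatFunc K) F (algebraMap K[X] (RatFunc K) D) * y ^ l =
      ∏ t ∈ R, (x - algebraMap (RatFunc K) F (RatFunc.C t)) ^ m t)
    (s : GalSection (RatFunc K) F Ω B) (hloc : LocallyGeometric s) :
    ∃! O : ValuationSubring F, s.ArisesFrom O := by
  let inst : Algebra K Ω := ((algebraMap (RatFunc K) Ω).comp (algebraMap K (RatFunc K))).toAlgebra
  have hinst : ∀ c : K, algebraMap K Ω c = algebraMap (RatFunc K) Ω (RatFunc.C c) := fun c => rfl
  set S : Ω := algebraMap (RatFunc K) Ω RatFunc.X with hS
  have hev : ∀ p : K[X], aeval S p = algebraMap (RatFunc K) Ω (algebraMap K[X] (RatFunc K) p) := by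
    intro p
    have h1 : ((aeval S : K[X] →ₐ[K] Ω) : K[X] →+* Ω) =
        (algebraMap (RatFunc K) Ω).comp (algebraMap K[X] (RatFunc K)) := by
      apply Polynomial.ringHom_ext
      · intro c
        rw [RingHom.comp_apply, RatFunc.algebraMap_C]
        exact (aeval_C S c)
      · rw [RingHom.comp_apply, RatFunc.algebraMap_X]
        exact aeval_X S
    exact congrArg (fun f : K[X] →+* Ω => f p) h1
  have hST : Transcendental K S := by
    rw [transcendental_iff]
    intro p hp
    rw [hev] at hp
    have h2 := (_root_.map_eq_zero _).1 hp
    exact (map_eq_zero_iff _ (RatFunc.algebraMap_injective K)).1 h2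
  have hl0 : l ≠ 0 := hl.ne_zero
  have hmem : ∀ z : F, algebraMap F Ω z ∈ IntermediateField.adjoin F
      ((⊥ : IntermediateField (RatFunc K) Ω) : Set Ω) := fun z =>
    IntermediateField.algebraMap_mem _ z
  -- the equation
  let H : K[X][X] := C (D ^ (l - 1))
  let y' : Ω := algebraMap F Ω (algebraMap (RatFunc K) F (algebraMap K[X] (RatFunc K) D) * y)
  have hy' : y' ^ l = (∏ t ∈ R, (algebraMap F Ω x - algebraMap K Ω t) ^ m t) *
      val H (algebraMap F Ω x) S := by
    have h1 : val H (algebraMap F Ω x) S = algebraMap F Ω (algebraMap (RatFunc K) F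
        (algebraMap K[X] (RatFunc K) D)) ^ (l - 1) := by
      change eval₂ (aeval S : K[X] →ₐ[K] Ω).toRingHom (algebraMap F Ω x) (C (D ^ (l - 1))) = _
      rw [eval₂_C]
      change aeval S (D ^ (l - 1)) = _
      rw [map_pow, hev, IsScalarTower.algebraMap_apply (RatFunc K) F Ω]
    have h2 : ∏ t ∈ R, (algebraMap F Ω x - algebraMap K Ω t) ^ m t = algebraMap F Ω
        (∏ t ∈ R, (x - algebraMap (RatFunc K) F (RatFunc.C t)) ^ m t) := by
      rw [map_prod]
      refine Finset.prod_congr rfl fun t _ => ?_
      rw [map_pow, map_sub, hinst, IsScalarTower.algebraMap_apply (RatFunc K) F Ω]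
    rw [h1, h2, ← hxy]
    change (algebraMap F Ω _) ^ l = _
    rw [map_mul, map_mul, mul_pow, map_pow]
    obtain ⟨q, hq⟩ : ∃ q, l = q + 1 := ⟨l - 1, by omega⟩
    rw [hq, Nat.add_sub_cancel]
    ring
  have hbot : FiniteDimensional (RatFunc K) (⊥ : IntermediateField (RatFunc K) Ω) := inferInstance
  refine general hF (⊥ : IntermediateField (RatFunc K) Ω) K S hST ?_ l hl R m H Z hm ?_ hfew
    (algebraMap F Ω x) y' (hmem _) (hmem _) ?_ hy' s hloc
  · apply le_antisymm
    · intro z hz
      obtain ⟨r, rfl⟩ := IntermediateField.mem_bot.1 hz
      have hpol : ∀ p : K[X], algebraMap (RatFunc K) Ω (algebraMap K[X] (RatFunc K) p) ∈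
          Subfield.closure (Set.range (algebraMap K Ω) ∪ {S}) := by
        intro p
        rw [← hev, aeval_eq_sum_range]
        refine sum_mem fun i _ => ?_
        rw [Algebra.smul_def]
        have m1 : ∀ c : K, algebraMap K Ω c ∈
            Subfield.closure (Set.range (algebraMap K Ω) ∪ {S}) := fun c =>
          Subfield.subset_closure (Set.mem_union_left _ ⟨c, rfl⟩)
        have m2 : S ∈ Subfield.closure (Set.range (algebraMap K Ω) ∪ {S}) :=
          Subfield.subset_closure (Set.mem_union_right _ (Set.mem_singleton S))
        exact mul_mem (m1 _) (pow_mem m2 i)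
      have h3 : (algebraMap (RatFunc K) Ω) r ∈
          Subfield.closure (Set.range (algebraMap K Ω) ∪ {S}) := by
        have h4 := congrArg (algebraMap (RatFunc K) Ω) (RatFunc.num_div_denom r)
        rw [map_div₀] at h4
        rw [← h4]
        exact div_mem (hpol _) (hpol _)
      exact h3
    · rw [Subfield.closure_le]
      rintro z (⟨c, rfl⟩ | hz)
      · exact ⟨RatFunc.C c, rfl⟩
      · rw [Set.mem_singleton_iff] at hz
        rw [hz]
        exact ⟨RatFunc.X, rfl⟩
  · intro t _ π h1 h2 h3
    refine hZ π h1 h2 ?_
    have h4 : H.eval (C t) = D ^ (l - 1) := eval_C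
    rw [h4] at h3
    exact h2.prime.dvd_of_dvd_pow h3
  · intro h
    apply hxt
    exact (isAlgebraic_algebraMap_iff (algebraMap F Ω).injective).1 h

/-- **Theorem.** The birational section conjecture (1) over a finitely generated field `k` for the
curves which have, over a finite extension `k' = K(S)` of `k`, a nonconstant map to a cyclic covering
`y ^ l = ∏ (x - t) ^ m t * H(x, S)` of the line with many constant branch points, which the other branch
points meet at few closed points; (2) over `K(S)` for the curves with a nonconstant map to a twist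
`D(S) y ^ l = ∏ (x - t) ^ m t`, where `D` has few irreducible factors. -/
theorem result :
    (∀ (k : Type) [Field k] [CharZero k] [Algebra.EssFiniteType ℚ k]
      (F Ω B : Type) [Field F] [Field Ω] [Field B]
      [Algebra k F] [Algebra F Ω] [Algebra k Ω] [Algebra k B]
      [IsScalarTower k F Ω] [IsAlgClosure F Ω] [IsAlgClosure k B], IsCurveField k F →
      ∀ (k' : IntermediateField k Ω) [FiniteDimensional k k']
      (K : Type) [Field K] [CharZero K] [Algebra.EssFiniteType ℚ K] [Algebra K Ω]
      (S : Ω), Transcendental K S →
      k'.toSubfield = Subfield.closure (Set.range (algebraMap K Ω) ∪ {S}) →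
      ∀ (l : ℕ), l.Prime → ∀ (R : Finset K) (m : K → ℕ) (H : K[X][X]) (Z : Finset K[X]),
      (∀ t ∈ R, ¬ l ∣ m t) → (∀ t ∈ R, FactorsIn (H.eval (C t)) Z) → Few l R.card Z.card →
      ∀ (x y : Ω), x ∈ IntermediateField.adjoin F (k' : Set Ω) →
      y ∈ IntermediateField.adjoin F (k' : Set Ω) → Transcendental k x →
      y ^ l = (∏ t ∈ R, (x - algebraMap K Ω t) ^ m t) * val H x S →
      ∀ s : GalSection k F Ω B, LocallyGeometric s → ∃! O : ValuationSubring F, s.ArisesFrom O) ∧
    (∀ (K : Type) [Field K] [CharZero K] [Algebra.EssFiniteType ℚ K]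
      (F Ω B : Type) [Field F] [Field Ω] [Field B]
      [Algebra (RatFunc K) F] [Algebra F Ω] [Algebra (RatFunc K) Ω] [Algebra (RatFunc K) B]
      [IsScalarTower (RatFunc K) F Ω] [IsAlgClosure F Ω] [IsAlgClosure (RatFunc K) B],
      IsCurveField (RatFunc K) F →
      ∀ (l : ℕ), l.Prime → ∀ (R : Finset K) (m : K → ℕ), (∀ t ∈ R, ¬ l ∣ m t) →
      ∀ (D : K[X]) (Z : Finset K[X]), D ≠ 0 → FactorsIn D Z → Few l R.card Z.card →
      ∀ (x y : F), Transcendental (RatFunc K) x →
      algebraMap (RatFunc K) F (algebraMap K[X] (RatFunc K) D) * y ^ l =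
        ∏ t ∈ R, (x - algebraMap (RatFunc K) F (RatFunc.C t)) ^ m t →
      ∀ s : GalSection (RatFunc K) F Ω B, LocallyGeometric s →
        ∃! O : ValuationSubring F, s.ArisesFrom O) := by
  refine ⟨?_, ?_⟩
  · intro k _ _ _ F Ω B _ _ _ _ _ _ _ _ _ _ hF k' _ K _ _ _ _ S hS hk' l hl R m H Z hm hZ hfew x y
      hx hy hxt hxy s hloc
    exact general hF k' K S hS hk' l hl R m H Z hm hZ hfew x y hx hy hxt hxy s hloc
  · intro K _ _ _ F Ω B _ _ _ _ _ _ _ _ _ _ hF l hl R m hm D Z hD0 hZ hfew x y hxt hxy s hloc
    have hch : CharZero (RatFunc K) :=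
      charZero_of_injective_algebraMap (algebraMap K (RatFunc K)).injective
    have hess : Algebra.EssFiniteType ℚ (RatFunc K) := by
      have h1 : Algebra.EssFiniteType K (RatFunc K) := by
        have h2 : Algebra.FiniteType K K[X] := inferInstance
        have h3 : Algebra.EssFiniteType K[X] (RatFunc K) :=
          Algebra.EssFiniteType.of_isLocalization (RatFunc K) (nonZeroDivisors K[X])
        exact Algebra.EssFiniteType.comp K K[X] (RatFunc K)
      exact Algebra.EssFiniteType.comp ℚ K (RatFunc K)
    exact twist hF l hl R m hm D hD0 Z hZ hfew x y hxt hxy s hloc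

end Pool.Agent.Results.MP_8312c9_nt.FewBadPlaces
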