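import Pool.Agent.Q308.BS.HypE

/-!
# The birational section conjecture for the curves over almost all twists of hyperelliptic curves

Let `K` be a field finitely generated over `ℚ`, let `A` be a finite set of at least three polynomials
in `K[S]` and let `c` be a nonzero polynomial in `K[S]`. The curves

  `c y ^ 2 = ∏ (x - a)`  (`a` in `A`)

are, up to isomorphism, all the elliptic and hyperelliptic curves over `K(S)` the Weierstrass points of
which are rational (and, for an even number of factors, those without the condition that infinity is a
branch point), of all genera. Let `T` be the finite set of the monic irreducible polynomials which divide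
`c` or a difference of two elements of `A`; the curve has good reduction at the other closed points of the
affine line. Let `D` be a polynomial, and let

  `C_D : D c y ^ 2 = ∏ (x - a)`

be the quadratic twist of the curve.

**Theorem 1.** Suppose that `D` is irreducible of odd degree and that no product
`u ∏ π ^ e π` (`π` in `T`), where `u` is in `K`, `u ≠ 0`, and some exponent `e π` is odd, is a square
modulo `D`. Let `k` be any field finitely generated over `ℚ` which has a finite extension `k'`
isomorphic to `K(S)` (for instance `k = K(S)`). Then the birational section conjecture holds for every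
curve `X` over `k` which has over `k'` a nonconstant map to `C_D`: every section of
`Gal(Ω/F) → Gal(B/k)`, where `F` is the function field of `X` and `Ω`, `B` are algebraic closures of `F`,
`k`, arises from exactly one `k`-rational point of `X`. Here the section is assumed to be given by
rational points over the completions `L_v` of the number fields `L` at their finite places, for all the
embeddings of `k` in `L_v`; by the theorem of Koenigsmann on birational sections over `p`-adically closed
fields this holds for every section.

**Theorem 2.** Let `N` be odd, `N ≥ 2 + ∑ deg π` (`π` in `T`), and let `b i`, `i` in a finite set `κ`, be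
polynomials over `K` which span the polynomials of degree at most `N` (for example `b i = S ^ i`, or, if
`K` is a number field, the products of the elements of a basis of the integers of `K` and of the
`S ^ i`). Then the proportion, among the integer vectors `v` with `|v i| ≤ B`, of those for which the
polynomial `D = ∑ v i * b i` has degree `N` and the conclusion of Theorem 1 holds for all the twists
`C_{u D}`, `u` in `K`, `u ≠ 0`, tends to one as `B` tends to infinity.

The proof. Let `s` be a section and let `(x, y)` be the point of `C_D` in the function field. By Kummer
theory `x - a` is for every `a` in `A` the product of a polynomial `P a` and of a square of a function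
which is fixed by `s`, and `D c ∏ P a` is a square in `K(S)`. As `s` is locally geometric, the `P a` are
the classes of a point of `C_D` over every completion. At a closed point outside of `T` and `D` the
exponents of all the `P a` have the same parity. At a local point near a root of `D` in `K[S] / (D)` the
point is near a branch point `a0`, so that `P a (a0 - a)`, `a ≠ a0`, are squares and the exponent of
`P a0` is odd, or, if the number of the branch points `a` is odd, near infinity, so that all `P a P b`
are squares and the exponents are odd; which of the two cases occurs, and `a0`, are determined by the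
parities of the exponents at `D`. So the values of `P a (a0 - a) P b (a0 - b)` (`P a P b` in the second
case), which are products of elements of `T` and of constants, are local squares and hence squares in
`K[S] / (D)`, and by the hypothesis on `D` these polynomials are squares. It follows that three (if the
number of branch points is odd) or four (if it is even) of the branch points can be chosen for which a
polynomial multiple of `D` with all the other factors in `T` times a square is equal to the product of
the corresponding factors `x - a`: this is a point of an elliptic curve with rational points of order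
two, a twist by `D` of a curve with good reduction outside `T`. Its group of classes for the multiplication
by two consists of the classes of the points of order two by the same argument (file
`Pool.Agent.Q308.BS.SelW`), and the section is geometric by the starting theorems on curves over elliptic
curves with bounded Selmer groups (`MP_8312c9_nt.BoundedSelmer`). Note that `C_D` itself has, in
general, no map to an elliptic curve: the elliptic curve is found in terms of the section. The hypothesis
of Theorem 1 holds for almost all `D` by the counting theorem `Pool.Agent.Q308.TW.twist_full`
(embeddings of `K` in `ℚ_p` for infinitely many `p`, and the proportion of the polynomials modulo `p`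
which have suitable factorizations and values).
-/

set_option autoImplicit false

open Polynomial IsDedekindDomain NumberField Filter Topology Pool.Agent.TH954

namespace Pool.Agent.Results.MP_8312c9_nt.HyperellipticTwists

/-- The section `s` is given by a rational point over the extension `L` of `k` along `φ`, with the
algebraic closure of `L` as field of values. -/
def GeometricAlong {k F Ω B : Type} [Field k] [Field F] [Field Ω] [Field B] [Algebra F Ω]
    [Algebra k Ω] [Algebra k B] (s : GalSection k F Ω B) {L : Type} [Field L] (φ : k →+* L) :
    Prop :=
  letI := φ.toAlgebra
  s.GeometricOver L (AlgebraicClosure L)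

/-- The section `s` is given by rational points over the completions of number fields at their finite
places, for all the embeddings of `k` in these completions. -/
def LocallyGeometric {k F Ω B : Type} [Field k] [Field F] [Field Ω] [Field B] [Algebra F Ω]
    [Algebra k Ω] [Algebra k B] (s : GalSection k F Ω B) : Prop :=
  ∀ (L : Type) [Field L] [NumberField L] (v : HeightOneSpectrum (𝓞 L))
    (φ : k →+* v.adicCompletion L), GeometricAlong s φ

/-- `F` is an extension of `k` of transcendence degree one. -/
def IsCurveField (k F : Type) [Field k] [Field F] [Algebra k F] : Prop :=
  ∃ t : F, Transcendental k t ∧ Algebra.IsAlgebraic (IntermediateField.adjoin k {t}) F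

section defs

variable {K : Type} [Field K]

/-- The birational section conjecture holds for all the curves over a finitely generated field `k` of
characteristic zero which have over a finite extension `k'` of `k` isomorphic to `K(S)` a nonconstant map
to the curve `E y ^ 2 = ∏ (x - a)`, `a` in `A`: if `F` is the function field of the curve, `Ω`, `B`
are algebraic closures of `F`, `k`, every locally geometric section of `Gal(Ω/F) → Gal(B/k)` arises from
exactly one rational point. -/
def SectionsArise (A : Finset K[X]) (E : K[X]) : Prop :=
  ∀ (k : Type) [Field k] [CharZero k] [Algebra.EssFiniteType ℚ k]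
    (F Ω B : Type) [Field F] [Field Ω] [Field B]
    [Algebra k F] [Algebra F Ω] [Algebra k Ω] [Algebra k B]
    [IsScalarTower k F Ω] [IsAlgClosure F Ω] [IsAlgClosure k B], IsCurveField k F →
  ∀ (k' : IntermediateField k Ω) [FiniteDimensional k k'] (ψ : RatFunc K →+* Ω),
    ψ.fieldRange = k'.toSubfield →
  ∀ x y : Ω, x ∈ IntermediateField.adjoin F (k' : Set Ω) →
    y ∈ IntermediateField.adjoin F (k' : Set Ω) → Transcendental k x →
    ψ (algebraMap K[X] (RatFunc K) E) * y ^ 2 =
      ∏ a ∈ A, (x - ψ (algebraMap K[X] (RatFunc K) a)) →
  ∀ s : GalSection k F Ω B, LocallyGeometric s → ∃! O : ValuationSubring F, s.ArisesFrom O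

/-- The finite set `T` consists of the monic irreducible polynomials which divide `c` or the difference
of two different elements of `A`. -/
def BadPrimes (A : Finset K[X]) (c : K[X]) (T : Finset K[X]) : Prop :=
  ∀ π : K[X], π ∈ T ↔ π.Monic ∧ Irreducible π ∧ (π ∣ c ∨ ∃ a ∈ A, ∃ b ∈ A, a ≠ b ∧ π ∣ a - b)

/-- The elements of `T` are independent modulo constants and squares in `K[S] / (D)`: if the product of
a nonzero constant and of powers of the elements of `T` is a square modulo `D`, the exponents are
even. -/
def Independent (T : Finset K[X]) (D : K[X]) : Prop :=
  ∀ (u : K) (e : K[X] → ℕ) (z : K[X]), u ≠ 0 → D ∣ C u * ∏ π ∈ T, π ^ e π - z ^ 2 →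
    ∀ π ∈ T, Even (e π)

variable {κ : Type} [Fintype κ]

/-- The polynomials `b i` have degree at most `N` and span the polynomials of degree at most `N`. -/
def Spans (N : ℕ) (b : κ → K[X]) : Prop :=
  (∀ i, (b i).natDegree ≤ N) ∧ ∀ j : Fin (N + 1), ∃ c : κ → K, ∑ i, C (c i) * b i = X ^ (j : ℕ)

/-- The integer combination of the `b i` with the coefficients `v i`. -/
noncomputable def comb (b : κ → K[X]) (v : κ → ℤ) : K[X] := ∑ i, C ((v i : ℤ) : K) * b i

/-- The integer vectors with coordinates of absolute value at most `B`. -/
def Box (κ : Type) (B : ℕ) : Set (κ → ℤ) := {v | ∀ i, |v i| ≤ B}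

/-- The property `S` holds for a proportion of the vectors in the boxes which tends to one. -/
def AlmostAll (S : Set (κ → ℤ)) : Prop :=
  Tendsto (fun B : ℕ => ((Box κ B ∩ S).ncard : ℝ) / (Box κ B).ncard) atTop (𝓝 1)

end defs

theorem fg_of_ess {K : Type} [Field K] [CharZero K] [Algebra.EssFiniteType ℚ K] :
    ∃ s : Finset K, Subfield.closure (s : Set K) = ⊤ := by
  obtain ⟨s, hs⟩ := IntermediateField.fg_top (F := ℚ) (E := K)
  refine ⟨s, ?_⟩
  have h1 : (IntermediateField.adjoin ℚ (s : Set K)).toSubfield ≤ Subfield.closure (s : Set K) := by
    rw [IntermediateField.adjoin_toSubfield, Subfield.closure_le]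
    rintro x (⟨q, rfl⟩ | hx)
    · have h := SubfieldClass.ratCast_mem (Subfield.closure (s : Set K)) q
      simpa using h
    · exact Subfield.subset_closure hx
  rw [eq_top_iff]
  intro x _
  apply h1
  rw [hs]
  trivial

theorem good {K : Type} [Field K] {T : Finset K[X]} {D : K[X]} (h1 : Irreducible D)
    (h2 : Odd D.natDegree) (h3 : Independent T D) :
    Pool.Agent.Q308.BS.GoodTwist T D := by
  classical
  refine ⟨h1, h2, ?_, fun c e z hc hd π hπ => (h3 c e z hc hd π hπ).two_dvd⟩
  intro π hπ hd
  have h4 := h3 1 (fun q => if q = π then 1 else 0) 0 one_ne_zero (by
    rw [zero_pow two_ne_zero, sub_zero]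
    refine Dvd.dvd.mul_left ?_ _
    refine hd.trans ?_
    have h5 := Finset.dvd_prod_of_mem (fun q : K[X] => q ^ (if q = π then 1 else 0)) hπ
    simp only [if_true, pow_one] at h5
    exact h5) π hπ
  simp only [if_true] at h4
  exact absurd h4 (by decide)

/-- **Theorem.** (1) The birational section conjecture for all the curves with a nonconstant map to
the quadratic twist by `D` of an elliptic or hyperelliptic curve with rational branch points over
`K(S)`, if `D` is irreducible of odd degree and the places of bad reduction are independent modulo `D`.
(2) The birational section conjecture for all the curves with a nonconstant map to one of the quadratic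
twists by the constant multiples of `D`, for 100 percent of the `D`. -/
theorem result {K : Type} [Field K] [CharZero K] [Algebra.EssFiniteType ℚ K] {A : Finset K[X]}
    (hA : 3 ≤ A.card) {c : K[X]} (hc : c ≠ 0) {T : Finset K[X]} (hT : BadPrimes A c T) :
    (∀ D : K[X], Irreducible D → Odd D.natDegree → Independent T D → SectionsArise A (D * c)) ∧
    ∀ N : ℕ, Odd N → (∑ π ∈ T, π.natDegree) + 2 ≤ N → ∀ (κ : Type) [Fintype κ] (b : κ → K[X]),
      Spans N b → AlmostAll {v | (comb b v).natDegree = N ∧
        ∀ u : K, u ≠ 0 → SectionsArise A (C u * comb b v * c)} := by
  classical
  have hbad : Pool.Agent.Q308.BS.BadH A c T := hT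
  have main : ∀ D : K[X], Pool.Agent.Q308.BS.GoodTwist T D → SectionsArise A (D * c) := by
    intro D hD k _ _ _ F Ω B _ _ _ _ _ _ _ _ _ _ hF k' _ ψ hψ x y hx hy hxt hxy s hloc
    exact Pool.Agent.Q308.BS.hyp_main hF k' ψ hψ hD hc hbad hA x y hx hy hxt hxy s
      (fun i => hloc i.L i.v i.φ)
  refine ⟨fun D h1 h2 h3 => main D (good h1 h2 h3), ?_⟩
  intro N hN hdeg κ _ b hb
  have hprod : (∏ π ∈ T, π).natDegree = ∑ π ∈ T, π.natDegree :=
    natDegree_prod _ _ fun π hπ => (((hT π).1 hπ).2.1).ne_zero
  have h1 := Pool.Agent.Q308.TW.twist_full fg_of_ess Nat.prime_two
    (IsPrimitiveRoot.neg_one 0 (by norm_num) : IsPrimitiveRoot (-1 : K) 2) T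
    (fun π hπ => ⟨((hT π).1 hπ).2.1, ((hT π).1 hπ).1⟩) (by rw [hprod]; exact hdeg) hb
  have h3 : Pool.Agent.Q126.TD.Full {v : κ → ℤ | (comb b v).natDegree = N ∧
      ∀ u : K, u ≠ 0 → SectionsArise A (C u * comb b v * c)} := by
    refine h1.mono ?_
    rintro v ⟨r1, r2, r3, r4⟩
    have hg : Pool.Agent.Q308.BS.GoodTwist T (comb b v) := ⟨r1, by
      change Odd (Pool.Agent.Q308.TC.comb b v).natDegree
      rw [r2]
      exact hN, r3, r4⟩
    exact ⟨r2, fun u hu => main _ (hg.smul hu)⟩
  refine h3.congr fun B => ?_
  have h5 : ((Box κ B).ncard : ℝ) = (2 * B + 1 : ℝ) ^ Fintype.card κ := by
    have : (Box κ B).ncard = (2 * B + 1) ^ Fintype.card κ :=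
      Pool.Agent.Q126.TD.box_ncard (κ := κ) B
    rw [this]
    push_cast
    rfl
  rw [h5]
  rfl

end Pool.Agent.Results.MP_8312c9_nt.HyperellipticTwists
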