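import Pool.Agent.Results.MP_8312c9_nt.BirationalSectionsOfTwists
import Pool.Agent.Q319.WN.Weak2

/-!
# The birational section conjecture for ALL quadratic twists near the multiples and the dilates of almost every real number

Let `N ≥ 6` be even and let `e_1, …, e_N` be different integers. For squarefree `d` let `C_d` be the curve
`d y² = ∏ (x - e_i)`, of genus `(N - 2) / 2 ≥ 2`. Under the conditions `CrossRatio` and `Progressions` (satisfied by
`0, 6, 10, 15, 30, -30`) the statement `SectionsAreGeometric e d` (every section of `Gal(Ω/F) → G_ℚ`, `F` the function field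
of `C_d` or of a covering, which is geometric over the completions of `ℚ` at the finite places comes from exactly one
rational point, which lies over one of the points `(e_i, 0)`) holds for ALL squarefree `d` with `||d| - n y| ≤ w`, for
almost all real numbers `y` of size `X ^ (1 - θ)` and all `n ≤ X ^ θ` with at most `C w X ^ θ / (log X) ^ (1/5)` exceptions.
If `∑ w_n / (log v_n) ^ (1/5)` converges then for almost every real `α > 0` and all large `n` it holds for ALL
squarefree `d` with `||d| - α v_n| ≤ w_n`.

From Mathlib: `Squarefree`; `volume`: the Lebesgue measure; `∀ᵐ`: for almost all real numbers; `∀ᶠ k in atTop`: for all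
large `k`. The hypothesis on the Tate-Shafarevich group of one elliptic curve, and the bound for the number of exceptional
twists, are those of the starting file `BirationalSectionsOfTwists`; the count of the elements of arbitrary sets of
integers in intervals at multiples of real numbers is from the starting files, too (`Pool.Agent.H438R2.DL`).
`ScarceAtMultiples` and `ScarceAtDilates` are defined in `Pool.Agent.Q319.WN.Weak`.
-/

set_option autoImplicit false

open Pool.Agent.W620.SC Pool.Agent.TH954

namespace Pool.Agent.Results.MP_8312c9_nt.TwistsAtRealMultiples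

open Pool.Agent.Q319.WN Pool.Agent.Results.MP_8312c9_nt.BirationalSectionsOfTwists

/-- Let the Tate-Shafarevich group of the elliptic curve `Pool.Agent.TH942.sw (-351) 1890` over `ℚ` be killed by a positive
integer (it is finite by the theorem of Kolyvagin). Let the `N ≥ 6` branch points `e_i`, `N` even, be different and
satisfy `CrossRatio` and `Progressions`.
1. (multiples) For `0 < θ < 1` there are `c > 0` and `C` such that for all large `X`, `1 ≤ w ≤ X ^ c` and all real `y` with
   `X ^ (1 - θ) ≤ y ≤ 2 X ^ (1 - θ)` outside a set of measure at most `X ^ (1 - θ - c)`: for all `n ≤ X ^ θ` with at most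
   `C w X ^ θ / (log X) ^ (1/5)` exceptions `SectionsAreGeometric e d` holds for ALL squarefree `d` with
   `||d| - n y| ≤ w`.
2. (dilates) For all `v n ≥ 3` and `0 ≤ w n ≤ v n` for which `∑ w n / (log (v n)) ^ (1/5)` converges and almost every real
   `α > 0`: for all large `n` it holds for ALL squarefree `d` with `||d| - α v n| ≤ w n`. -/
theorem result (M₀ : ℕ) (hM₀ : 1 ≤ M₀)
    (hSha : ShaKilledBy (Pool.Agent.TH942.sw (-351) (1890 : ℚ)) M₀)
    (K : Type) [Fintype K] (e : K → ℤ) (he : Function.Injective e) (hev : Even (Fintype.card K))
    (hK : 6 ≤ Fintype.card K) (hCR : CrossRatio e) (hPr : Progressions e) :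
    ScarceAtMultiples (1 / 5) (fun d => Squarefree d ∧ ¬ SectionsAreGeometric e d) ∧
    ScarceAtDilates (1 / 5) (fun d => Squarefree d ∧ ¬ SectionsAreGeometric e d) := by
  obtain ⟨C, hC⟩ := (BirationalSectionsOfTwists.result M₀ hM₀ hSha).1 K e he hev hK hCR hPr
  exact scarce_both (by norm_num) (C := C) fun X hX => hC X (by omega)

end Pool.Agent.Results.MP_8312c9_nt.TwistsAtRealMultiples
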